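import Pool.Agent.H20.SM.Targets
import Pool.Agent.H37.CV.All

/-!
# The numbers of the characters for special moduli (MP_347b49_nt)
-/

set_option autoImplicit false

open NumberField NumberField.InfinitePlace Complex Filter Topology MeasureTheory

namespace Pool.Agent.H38.SM

open Pool.Agent.H28.RC Pool.Agent.H25.HK Pool.Agent.H37.CV Pool.Agent.H20.SM

private theorem ncr_mul {n u c N C w : ℝ} (hu : 0 < u) (hw : 0 < w)
    (h1 : n * u ≤ C * N) (h2 : w * N ≤ u * (2 * (c * w))) (hC : 0 ≤ C) : n ≤ 2 * C * c := by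
  have h3 : n * u * w ≤ 2 * C * c * (u * w) := by
    calc n * u * w ≤ C * N * w := mul_le_mul_of_nonneg_right h1 hw.le
      _ = C * (w * N) := by ring
      _ ≤ C * (u * (2 * (c * w))) := mul_le_mul_of_nonneg_left h2 hC
      _ = 2 * C * c * (u * w) := by ring
  have h4 : n * (u * w) ≤ 2 * C * c * (u * w) := by linarith
  exact le_of_mul_le_mul_right h4 (mul_pos hu hw)

theorem pf_NCR (hU1 : T_U1) (hU2 : T_U2) (hPHI : T_PHI) (_hCRT : T_CRT) : T_NCR := by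
  intro F _ _ _ _
  obtain ⟨w, r, hw, hwr⟩ := hU1 F
  obtain ⟨C₀, hC₀⟩ := a_HU F
  refine ⟨2 * C₀ + 1, 3 * r + 2, by
    have : (0 : ℝ) ≤ C₀ := Nat.cast_nonneg _
    linarith, by omega, fun A => ?_⟩
  obtain ⟨x₀, hx₀⟩ := hPHI F A
  refine ⟨max x₀ (2 * w + 2), fun x q hx hq => ?_⟩
  have hx1 : x₀ ≤ x := (le_max_left _ _).trans hx
  have hx2 : 2 * (w : ℝ) + 2 ≤ x := (le_max_right _ _).trans hx
  have hw1 : (1 : ℝ) ≤ w := by exact_mod_cast hw
  have hx0 : (1 : ℝ) ≤ x := by linarith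
  have hxp : (0 : ℝ) < x := by linarith
  have hC0 : (0 : ℝ) ≤ C₀ := Nat.cast_nonneg _
  have hq0 : q ≠ 0 := hq.sq.1.ne_zero
  have hqb : qi F q ≠ ⊥ := by
    unfold qi
    rw [Ne, Ideal.span_singleton_eq_bot]
    exact_mod_cast hq0
  have hdb : ∀ d : Ideal (𝓞 F), qi F q ≤ d → d ≠ ⊥ := fun d hd h =>
    hqb (le_bot_iff.1 (h ▸ hd))
  obtain ⟨k, hk1, hk2, hk3⟩ := hq.ex
  have hncp : 0 < nc (qi F q) (qi F q) := (a_OR F (qi F q) (qi F q) hqb le_rfl).2.1
  -- units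
  have huc : ∀ d : Ideal (𝓞 F), qi F q ≤ d → (uc d : ℝ) ≤ w * x ^ (3 * r) := by
    intro d hd
    have h1 : (uc d : ℝ) ≤ w * (k : ℝ) ^ r := by
      exact_mod_cast hwr q k hq.sq hk1 hk3 d hd
    have h2 : (k : ℝ) ^ r ≤ x ^ (3 * r) := by
      rw [pow_mul]
      exact pow_le_pow_left₀ (Nat.cast_nonneg _) hk2 _
    exact h1.trans (mul_le_mul_of_nonneg_left h2 (by linarith))
  have hE : 2 * (w * x ^ (3 * r)) ≤ x ^ (3 * r + 2) := by
    have h1 : (0 : ℝ) < x ^ (3 * r) := pow_pos hxp _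
    have h2 : 2 * (w : ℝ) ≤ x ^ 2 := by nlinarith
    calc 2 * (w * x ^ (3 * r)) = x ^ (3 * r) * (2 * w) := by ring
      _ ≤ x ^ (3 * r) * x ^ 2 := mul_le_mul_of_nonneg_left h2 h1.le
      _ = x ^ (3 * r + 2) := by ring
  have hup : ∀ d : Ideal (𝓞 F), qi F q ≤ d → (1 : ℝ) ≤ uc d := fun d hd => by
    exact_mod_cast Pool.Agent.H46.CV.uc_pos (hdb d hd)
  -- the number of the characters modulo `q`
  have hphi : nm (qi F q) ≤ 2 * (nc (qi F q) (qi F q) * uc (qi F q) : ℝ) := by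
    have h1 := hx₀ x q hx1 hq
    have h2 : (Nat.card (𝓞 F ⧸ qi F q)ˣ : ℝ) ≤ nc (qi F q) (qi F q) * uc (qi F q) := by
      exact_mod_cast (hC₀ (qi F q) (qi F q) hqb le_rfl).1
    linarith
  have hncr : (0 : ℝ) < nc (qi F q) (qi F q) := by exact_mod_cast hncp
  refine ⟨hncp, ?_, fun d hd => ⟨?_, ?_, ?_⟩⟩
  · calc nm (qi F q) ≤ 2 * (nc (qi F q) (qi F q) * uc (qi F q) : ℝ) := hphi
      _ ≤ 2 * (nc (qi F q) (qi F q) * (w * x ^ (3 * r)) : ℝ) := by
          have := mul_le_mul_of_nonneg_left (huc _ le_rfl) hncr.le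
          linarith
      _ = 2 * (w * x ^ (3 * r)) * nc (qi F q) (qi F q) := by ring
      _ ≤ x ^ (3 * r + 2) * nc (qi F q) (qi F q) := mul_le_mul_of_nonneg_right hE hncr.le
  · have h1 := huc d hd
    have h2 : (0 : ℝ) ≤ w * x ^ (3 * r) := by positivity
    linarith
  · have h1 : (nc (qi F q) d * uc d : ℝ) ≤ C₀ * nm d := by
      unfold nm
      exact_mod_cast (hC₀ (qi F q) d hqb hd).2
    have h2 : (0 : ℝ) ≤ nm d := by unfold nm; exact Nat.cast_nonneg _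
    nlinarith
  · have h1 : (nc (qi F q) d * uc d : ℝ) ≤ C₀ * nm d := by
      unfold nm
      exact_mod_cast (hC₀ (qi F q) d hqb hd).2
    have h2 := hU2 F q hq.sq d hd
    have hpd : (0 : ℝ) ≤ pd q d := by
      unfold pd
      exact Finset.prod_nonneg fun p _ => Nat.cast_nonneg _
    have h3 : (nc (qi F q) d * pd q d) * uc d ≤ C₀ * (nm d * pd q d) := by
      calc (nc (qi F q) d * pd q d) * uc d = (nc (qi F q) d * uc d) * pd q d := by ring
        _ ≤ C₀ * nm d * pd q d := mul_le_mul_of_nonneg_right h1 hpd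
        _ = C₀ * (nm d * pd q d) := by ring
    have h4 : (uc (qi F q) : ℝ) * (nm d * pd q d) ≤
        uc d * (2 * (nc (qi F q) (qi F q) * uc (qi F q))) := by
      calc (uc (qi F q) : ℝ) * (nm d * pd q d) = uc (qi F q) * nm d * pd q d := by ring
        _ ≤ uc d * nm (qi F q) := h2
        _ ≤ _ := mul_le_mul_of_nonneg_left hphi (by linarith [hup d hd])
    have h5 := ncr_mul (show (0 : ℝ) < uc d by linarith [hup d hd])
      (show (0 : ℝ) < uc (qi F q) by linarith [hup _ le_rfl]) h3 h4 hC0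
    linarith

end Pool.Agent.H38.SM
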